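import Mathlib
import Pool.Agent.Lib.H4DMDefs

/-!
# Points of the double shuffle scheme: shuffle and stuffle products as functionals

`shE c u v` is the value of the linear functional `c` (given on words) on the shuffle product of the
words `u` and `v`; `stE c U V` is its value on the stuffle (quasi-shuffle) product of `U` and `V`.
`DPoint Φ Λ`: `Φ` is a shuffle character with `Φ(x₀) = Φ(x₁) = 0`, and `stv Φ Λ`, i.e. the
functional `Λ(y₁) π_Y(Φ)`, is a stuffle character.
-/

set_option autoImplicit false

namespace Pool.Agent.ECG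

open Pool.Agent.H4DM

variable {α M : Type*} [AddCommMonoid M]

/-- Value of the functional `c` on the shuffle product of two words. -/
def shE (c : List α → M) : List α → List α → M
  | [], v => c v
  | a :: u, [] => c (a :: u)
  | a :: u, b :: v =>
    shE (fun w => c (a :: w)) u (b :: v) + shE (fun w => c (b :: w)) (a :: u) v
termination_by u v => u.length + v.length

/-- Value of the functional `c` on the stuffle product of two words in the `y_n`. -/
def stE (c : List ℕ+ → M) : List ℕ+ → List ℕ+ → M
  | [], v => c v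
  | a :: u, [] => c (a :: u)
  | a :: u, b :: v =>
    stE (fun w => c (a :: w)) u (b :: v) + stE (fun w => c (b :: w)) (a :: u) v +
      stE (fun w => c ((a + b) :: w)) u v
termination_by u v => u.length + v.length

@[simp] theorem shE_nil_left (c : List α → M) (v : List α) : shE c [] v = c v := by
  rw [shE]

@[simp] theorem shE_nil_right (c : List α → M) (u : List α) : shE c u [] = c u := by
  cases u with
  | nil => rw [shE]
  | cons a u => rw [shE]

theorem shE_cons_cons (c : List α → M) (a b : α) (u v : List α) :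
    shE c (a :: u) (b :: v) =
      shE (fun w => c (a :: w)) u (b :: v) + shE (fun w => c (b :: w)) (a :: u) v := by
  rw [shE]

@[simp] theorem stE_nil_left (c : List ℕ+ → M) (v : List ℕ+) : stE c [] v = c v := by
  rw [stE]

@[simp] theorem stE_nil_right (c : List ℕ+ → M) (u : List ℕ+) : stE c u [] = c u := by
  cases u with
  | nil => rw [stE]
  | cons a u => rw [stE]

theorem stE_cons_cons (c : List ℕ+ → M) (a b : ℕ+) (u v : List ℕ+) :
    stE c (a :: u) (b :: v) =
      stE (fun w => c (a :: w)) u (b :: v) + stE (fun w => c (b :: w)) (a :: u) v +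
      stE (fun w => c ((a + b) :: w)) u v := by
  rw [stE]

/-- The functional `Λ(y₁) π_Y(Φ)` on words in the `y_n`:
`y₁ⁿ v ↦ ∑_{i ≤ n} Λ_i Φ(y₁^{n-i} v)` if `v` does not begin with `y₁`. -/
noncomputable def stv (Φ : List (Fin 2) → ℝ) : (ℕ → ℝ) → List ℕ+ → ℝ
  | Λ, [] => Λ 0 * Φ []
  | Λ, n :: t => Λ 0 * Φ (yw (n :: t)) + if n = 1 then stv Φ (fun i => Λ (i + 1)) t else 0

/-- A real point of the double shuffle scheme. -/
structure DPoint (Φ : List (Fin 2) → ℝ) (Λ : ℕ → ℝ) : Prop where
  nil : Φ [] = 1
  x0 : Φ [0] = 0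
  x1 : Φ [1] = 0
  sh : ∀ u v : List (Fin 2), shE Φ u v = Φ u * Φ v
  L0 : Λ 0 = 1
  L1 : Λ 1 = 0
  st : ∀ U V : List ℕ+, stE (stv Φ Λ) U V = stv Φ Λ U * stv Φ Λ V

end Pool.Agent.ECG
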