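import Mathlib
import Pool.Agent.Lib.H4DMPrimB
import Pool.Agent.ECG.Defs

/-!
# Dynkin's criterion: homogeneous polynomials vanishing on shuffles are Lie polynomials
-/

set_option autoImplicit false

open scoped TensorProduct

namespace Pool.Agent.ECG

open Pool.Agent.H4DM

noncomputable section

attribute [local instance] LieRing.ofAssociativeRing

/-! ### The shuffle coproduct -/

/-- `ℚ⟨x₀,x₁⟩ ⊗ ℚ⟨x₀,x₁⟩`. -/
abbrev T2 : Type := NC (Fin 2) ⊗[ℚ] NC (Fin 2)

/-- The shuffle coproduct: the letters are primitive. -/
def shCop : NC (Fin 2) →ₐ[ℚ] T2 :=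
  MonoidAlgebra.lift ℚ T2 (FreeMonoid (Fin 2))
    (FreeMonoid.lift (fun a : Fin 2 => wd [a] ⊗ₜ[ℚ] 1 + 1 ⊗ₜ[ℚ] wd [a]))

theorem shCop_letter (a : Fin 2) :
    shCop (wd [a]) = wd [a] ⊗ₜ[ℚ] 1 + 1 ⊗ₜ[ℚ] wd [a] := by
  unfold shCop wd
  rw [MonoidAlgebra.lift_single]
  simp

/-- The pairing of a tensor with a pair of words. -/
def tcX (a b : List (Fin 2)) : T2 →ₗ[ℚ] ℚ :=
  LinearMap.mul' ℚ ℚ ∘ₗ TensorProduct.map (cfL a) (cfL b)

theorem tcX_tmul (a b : List (Fin 2)) (p q : NC (Fin 2)) :
    tcX a b (p ⊗ₜ[ℚ] q) = cf p a * cf q b := by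
  simp only [tcX, LinearMap.comp_apply, TensorProduct.map_tmul, LinearMap.mul'_apply]
  rfl

theorem tcX_ext {x y : T2} (h : ∀ a b, tcX a b x = tcX a b y) : x = y := by
  let B := MonoidAlgebra.basis (FreeMonoid (Fin 2)) ℚ
  have key : ∀ (z : T2) (a b : List (Fin 2)),
      (B.tensorProduct B).repr z (FreeMonoid.ofList a, FreeMonoid.ofList b) = tcX a b z := by
    intro z a b
    induction z using TensorProduct.induction_on with
    | zero => simp
    | tmul p q =>
      rw [Module.Basis.tensorProduct_repr_tmul_apply, tcX_tmul, mul_comm]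
      rfl
    | add u v hu hv => rw [map_add, map_add, Finsupp.add_apply, hu, hv]
  apply (B.tensorProduct B).repr.injective
  ext ⟨a, b⟩
  exact (key x a b).trans ((h a b).trans (key y a b).symm)

theorem cf_one_nilX : cf (1 : NC (Fin 2)) [] = 1 := by
  rw [← wd_nil, cf_wd]; simp

theorem cf_one_consX (a : Fin 2) (l : List (Fin 2)) : cf (1 : NC (Fin 2)) (a :: l) = 0 := by
  rw [← wd_nil, cf_wd]; simp

theorem cf_letter_mul_cons (a b : Fin 2) (q : NC (Fin 2)) (l : List (Fin 2)) :
    cf (wd [a] * q) (b :: l) = if a = b then cf q l else 0 := by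
  rw [← cf_lq1, lq1_mul]
  have h1 : lq1 b (wd [a]) = if a = b then (1 : NC (Fin 2)) else 0 := by
    rw [lq1_wd_cons]; rfl
  have h2 : cf (wd [a]) ([] : List (Fin 2)) = 0 := by rw [cf_wd]; simp
  rw [h1, h2]
  split_ifs <;> simp

theorem cf_letter_mul_nil (a : Fin 2) (q : NC (Fin 2)) : cf (wd [a] * q) [] = 0 := by
  rw [cf_mul_nil, cf_wd]; simp

theorem tcX_cons_cons (a i j : Fin 2) (u v : List (Fin 2)) (z : T2) :
    tcX (i :: u) (j :: v) (shCop (wd [a]) * z) =
      (if a = i then tcX u (j :: v) z else 0) + (if a = j then tcX (i :: u) v z else 0) := by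
  induction z using TensorProduct.induction_on with
  | zero => simp
  | tmul r s =>
    rw [shCop_letter, add_mul, map_add]
    simp only [Algebra.TensorProduct.tmul_mul_tmul, tcX_tmul, one_mul, cf_letter_mul_cons]
    split_ifs <;> simp
  | add x y hx hy =>
    rw [mul_add, map_add, hx, hy, map_add, map_add]
    split_ifs <;> ring

theorem tcX_cons_nil (a i : Fin 2) (u : List (Fin 2)) (z : T2) :
    tcX (i :: u) [] (shCop (wd [a]) * z) = if a = i then tcX u [] z else 0 := by
  induction z using TensorProduct.induction_on with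
  | zero => simp
  | tmul r s =>
    rw [shCop_letter, add_mul, map_add]
    simp only [Algebra.TensorProduct.tmul_mul_tmul, tcX_tmul, one_mul, cf_letter_mul_cons,
      cf_letter_mul_nil]
    split_ifs <;> simp
  | add x y hx hy =>
    rw [mul_add, map_add, hx, hy, map_add]
    split_ifs <;> ring

theorem tcX_nil_cons (a i : Fin 2) (u : List (Fin 2)) (z : T2) :
    tcX [] (i :: u) (shCop (wd [a]) * z) = if a = i then tcX [] u z else 0 := by
  induction z using TensorProduct.induction_on with
  | zero => simp
  | tmul r s =>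
    rw [shCop_letter, add_mul, map_add]
    simp only [Algebra.TensorProduct.tmul_mul_tmul, tcX_tmul, one_mul, cf_letter_mul_cons,
      cf_letter_mul_nil]
    split_ifs <;> simp
  | add x y hx hy =>
    rw [mul_add, map_add, hx, hy, map_add]
    split_ifs <;> ring

theorem tcX_nil_nil (a : Fin 2) (z : T2) : tcX [] [] (shCop (wd [a]) * z) = 0 := by
  induction z using TensorProduct.induction_on with
  | zero => simp
  | tmul r s =>
    rw [shCop_letter, add_mul, map_add]
    simp only [Algebra.TensorProduct.tmul_mul_tmul, tcX_tmul, one_mul, cf_letter_mul_nil]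
    simp
  | add x y hx hy =>
    rw [mul_add, map_add, hx, hy, add_zero]

/-- The coefficients of the coproduct are the values on shuffles. -/
theorem tcX_shCop (P : NC (Fin 2)) (u v : List (Fin 2)) :
    tcX u v (shCop P) = shE (cf P) u v := by
  -- both sides as linear maps in `P`
  have key : ∀ (n : ℕ) (u v : List (Fin 2)), u.length + v.length ≤ n → ∀ P : NC (Fin 2),
      tcX u v (shCop P) = shE (cf P) u v := by
    intro n
    induction n with
    | zero =>
      intro u v huv P
      have hu : u = [] := List.length_eq_zero_iff.mp (by omega)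
      have hv : v = [] := List.length_eq_zero_iff.mp (by omega)
      subst hu; subst hv
      rw [shE_nil_left]
      have : tcX [] [] ∘ₗ shCop.toLinearMap = cfL [] := by
        apply lin_ext
        intro l
        rcases l with _ | ⟨a, l⟩
        · change tcX [] [] (shCop (wd [])) = cf (wd []) []
          rw [wd_nil, map_one, Algebra.TensorProduct.one_def, tcX_tmul, cf_one_nilX, mul_one]
        · change tcX [] [] (shCop (wd (a :: l))) = cf (wd (a :: l)) []
          rw [wd_cons, map_mul, tcX_nil_nil, cf_letter_mul_nil]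
      exact LinearMap.congr_fun this P
    | succ n ih =>
      intro u v huv P
      rcases u with _ | ⟨i, u⟩
      · rcases v with _ | ⟨j, v⟩
        · exact ih [] [] (by simp) P
        · simp only [List.length_cons, List.length_nil] at huv
          rw [shE_nil_left]
          have : tcX [] (j :: v) ∘ₗ shCop.toLinearMap = cfL (j :: v) := by
            apply lin_ext
            intro l
            rcases l with _ | ⟨a, l⟩
            · change tcX [] (j :: v) (shCop (wd [])) = cf (wd []) (j :: v)
              rw [wd_nil, map_one, Algebra.TensorProduct.one_def, tcX_tmul, cf_one_consX, mul_zero]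
            · change tcX [] (j :: v) (shCop (wd (a :: l))) = cf (wd (a :: l)) (j :: v)
              rw [wd_cons, map_mul, tcX_nil_cons, cf_letter_mul_cons,
                ih [] v (by simp only [List.length_nil]; omega), shE_nil_left]
          exact LinearMap.congr_fun this P
      · rcases v with _ | ⟨j, v⟩
        · simp only [List.length_cons, List.length_nil] at huv
          rw [shE_nil_right]
          have : tcX (i :: u) [] ∘ₗ shCop.toLinearMap = cfL (i :: u) := by
            apply lin_ext
            intro l
            rcases l with _ | ⟨a, l⟩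
            · change tcX (i :: u) [] (shCop (wd [])) = cf (wd []) (i :: u)
              rw [wd_nil, map_one, Algebra.TensorProduct.one_def, tcX_tmul, cf_one_consX, zero_mul]
            · change tcX (i :: u) [] (shCop (wd (a :: l))) = cf (wd (a :: l)) (i :: u)
              rw [wd_cons, map_mul, tcX_cons_nil, cf_letter_mul_cons,
                ih u [] (by simp only [List.length_nil]; omega), shE_nil_right]
          exact LinearMap.congr_fun this P
        · simp only [List.length_cons] at huv
          rw [shE_cons_cons]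
          have e1 : (fun w => cf P (i :: w)) = cf (lq1 i P) := by
            funext w; rw [cf_lq1]
          have e2 : (fun w => cf P (j :: w)) = cf (lq1 j P) := by
            funext w; rw [cf_lq1]
          rw [e1, e2, ← ih u (j :: v) (by simp only [List.length_cons]; omega),
            ← ih (i :: u) v (by simp only [List.length_cons]; omega)]
          have : tcX (i :: u) (j :: v) ∘ₗ shCop.toLinearMap =
              tcX u (j :: v) ∘ₗ shCop.toLinearMap ∘ₗ lq1 i +
                tcX (i :: u) v ∘ₗ shCop.toLinearMap ∘ₗ lq1 j := by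
            apply lin_ext
            intro l
            rcases l with _ | ⟨a, l⟩
            · change tcX (i :: u) (j :: v) (shCop (wd [])) =
                tcX u (j :: v) (shCop (lq1 i (wd []))) + tcX (i :: u) v (shCop (lq1 j (wd [])))
              rw [lq1_nil, lq1_nil, map_zero, map_zero, map_zero, wd_nil, map_one,
                Algebra.TensorProduct.one_def, tcX_tmul, cf_one_consX, zero_mul, add_zero]
            · change tcX (i :: u) (j :: v) (shCop (wd (a :: l))) =
                tcX u (j :: v) (shCop (lq1 i (wd (a :: l)))) +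
                  tcX (i :: u) v (shCop (lq1 j (wd (a :: l))))
              rw [lq1_wd_cons, lq1_wd_cons, wd_cons, map_mul, tcX_cons_cons]
              split_ifs <;> simp
          exact LinearMap.congr_fun this P
  exact key _ u v le_rfl P

/-- A polynomial without constant term killed by all proper shuffles is primitive. -/
theorem shCop_of_shE {P : NC (Fin 2)} (h0 : cf P [] = 0)
    (h : ∀ u v : List (Fin 2), u ≠ [] → v ≠ [] → shE (cf P) u v = 0) :
    shCop P = P ⊗ₜ[ℚ] 1 + 1 ⊗ₜ[ℚ] P := by
  apply tcX_ext
  intro u v
  rw [tcX_shCop, map_add, tcX_tmul, tcX_tmul]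
  rcases u with _ | ⟨i, u⟩
  · rw [shE_nil_left, h0, cf_one_nilX]; ring
  · rcases v with _ | ⟨j, v⟩
    · rw [shE_nil_right, h0, cf_one_nilX]; ring
    · rw [h _ _ (by simp) (by simp), cf_one_consX, cf_one_consX]; ring

/-! ### The Dynkin operator -/

/-- Right-normed bracketing of words. -/
def dynW : List (Fin 2) → NC (Fin 2)
  | [] => 0
  | a :: l => wd [a] * dynW l - dynW l * wd [a] + if l = [] then wd [a] else 0

/-- The Dynkin operator. -/
def dyn : NC (Fin 2) →ₗ[ℚ] NC (Fin 2) := linw dynW

theorem dynW_mem (l : List (Fin 2)) : dynW l ∈ Lie01 := by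
  induction l with
  | nil => exact Lie01.zero_mem
  | cons a l ih =>
    have ha : wd [a] ∈ Lie01 := by
      fin_cases a
      · exact x0_mem
      · exact x1_mem
    rw [dynW]
    apply Lie01.add_mem (comm_mem ha ih)
    split_ifs
    · exact ha
    · exact Lie01.zero_mem

theorem dyn_mem (P : NC (Fin 2)) : dyn P ∈ Lie01 := by
  induction P using nc_induction with
  | hw l => rw [dyn, linw_wd]; exact dynW_mem l
  | zero => rw [map_zero]; exact Lie01.zero_mem
  | add a b ha hb => rw [map_add]; exact Lie01.add_mem ha hb
  | smul c a ha => rw [map_smul]; exact Lie01.smul_mem c ha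

theorem dyn_letter_mul (a : Fin 2) (P : NC (Fin 2)) :
    dyn (wd [a] * P) = wd [a] * dyn P - dyn P * wd [a] + (cf P []) • wd [a] := by
  induction P using nc_induction with
  | hw l =>
    rw [← wd_append, dyn, linw_wd, linw_wd]
    change dynW (a :: l) = _
    rw [dynW, cf_wd]
    split_ifs <;> simp
  | zero => simp
  | add p q hp hq =>
    rw [mul_add, map_add, hp, hq, map_add, cf_add, add_smul]; noncomm_ring
  | smul c p hp =>
    rw [mul_smul_comm, map_smul, hp, map_smul, cf_smul, mul_smul, smul_add, smul_sub,
      mul_smul_comm, smul_mul_assoc]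

/-- `x ⊗ y ↦ dyn(x) y`. -/
def dTh : T2 →ₗ[ℚ] NC (Fin 2) :=
  LinearMap.mul' ℚ (NC (Fin 2)) ∘ₗ TensorProduct.map dyn LinearMap.id

theorem dTh_tmul (x y : NC (Fin 2)) : dTh (x ⊗ₜ[ℚ] y) = dyn x * y := by
  simp [dTh]

/-- `x ⊗ y ↦ ε(x) y`. -/
def eTh : T2 →ₗ[ℚ] NC (Fin 2) :=
  LinearMap.mul' ℚ (NC (Fin 2)) ∘ₗ
    TensorProduct.map ((Algebra.linearMap ℚ (NC (Fin 2))) ∘ₗ cfL []) LinearMap.id

theorem eTh_tmul (x y : NC (Fin 2)) : eTh (x ⊗ₜ[ℚ] y) = (cf x []) • y := by
  simp only [eTh, LinearMap.comp_apply, TensorProduct.map_tmul, LinearMap.mul'_apply,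
    LinearMap.id_apply, Algebra.linearMap_apply]
  rw [← Algebra.smul_def]
  rfl

theorem eTh_shCop (l : List (Fin 2)) : eTh (shCop (wd l)) = wd l := by
  induction l with
  | nil =>
    rw [wd_nil, map_one, Algebra.TensorProduct.one_def, eTh_tmul, cf_one_nilX, one_smul]
  | cons a l ih =>
    have key : ∀ z : T2, eTh (shCop (wd [a]) * z) = wd [a] * eTh z := by
      intro z
      induction z using TensorProduct.induction_on with
      | zero => simp
      | tmul r s =>
        rw [shCop_letter, add_mul, map_add]
        simp only [Algebra.TensorProduct.tmul_mul_tmul, eTh_tmul, one_mul, cf_letter_mul_nil]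
        simp
      | add x y hx hy => rw [mul_add, map_add, hx, hy, map_add, mul_add]
    rw [wd_cons, map_mul, key, ih]

theorem dTh_shCop (l : List (Fin 2)) : dTh (shCop (wd l)) = (l.length : ℚ) • wd l := by
  induction l with
  | nil =>
    rw [wd_nil, map_one, Algebra.TensorProduct.one_def, dTh_tmul, ← wd_nil, dyn, linw_wd]
    simp [dynW]
  | cons a l ih =>
    have key : ∀ z : T2, dTh (shCop (wd [a]) * z) = wd [a] * dTh z + wd [a] * eTh z := by
      intro z
      induction z using TensorProduct.induction_on with
      | zero => simp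
      | tmul r s =>
        rw [shCop_letter, add_mul, map_add]
        simp only [Algebra.TensorProduct.tmul_mul_tmul, dTh_tmul, eTh_tmul, one_mul,
          dyn_letter_mul]
        simp only [add_mul, sub_mul, smul_mul_assoc, mul_smul_comm, mul_assoc]
        abel
      | add x y hx hy =>
        rw [mul_add, map_add, hx, hy, map_add, map_add, mul_add, mul_add]; abel
    rw [wd_cons, map_mul, key, ih, eTh_shCop, List.length_cons]
    push_cast
    rw [add_smul, one_smul, mul_smul_comm]

/-- A homogeneous polynomial of positive degree killed by all proper shuffles is a Lie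
polynomial. -/
theorem mem_Lie01_of_shE {P : NC (Fin 2)} {n : ℕ} (hn : 0 < n)
    (hom : ∀ w : List (Fin 2), w.length ≠ n → cf P w = 0)
    (h : ∀ u v : List (Fin 2), u ≠ [] → v ≠ [] → shE (cf P) u v = 0) : P ∈ Lie01 := by
  have h0 : cf P [] = 0 := hom [] (by simp; omega)
  have h1 := congrArg dTh (shCop_of_shE h0 h)
  have h2 : dTh (shCop P) = (n : ℚ) • P := by
    have key : ∀ Q : NC (Fin 2), dTh (shCop Q) = linw (fun l => (l.length : ℚ) • wd l) Q := by
      intro Q
      have : dTh ∘ₗ shCop.toLinearMap = linw (fun l => (l.length : ℚ) • wd l) := by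
        apply lin_ext
        intro l
        rw [linw_wd]
        exact dTh_shCop l
      exact LinearMap.congr_fun this Q
    rw [key]
    apply cf_ext
    intro l
    have hl : ∀ Q : NC (Fin 2), cf (linw (fun l => (l.length : ℚ) • wd l) Q) l =
        (l.length : ℚ) * cf Q l := by
      intro Q
      induction Q using nc_induction with
      | hw m =>
        rw [linw_wd, cf_smul, cf_wd]
        by_cases hm : m = l
        · subst hm; rfl
        · rw [if_neg hm, mul_zero, mul_zero]
      | zero => simp
      | add p q hp hq => rw [map_add, cf_add, hp, hq, cf_add]; ring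
      | smul c p hp => rw [map_smul, cf_smul, hp, cf_smul]; ring
    rw [hl, cf_smul]
    by_cases hl' : l.length = n
    · rw [hl']
    · rw [hom l hl', mul_zero, mul_zero]
  rw [h2, map_add, dTh_tmul, dTh_tmul, mul_one] at h1
  have h3 : dyn (1 : NC (Fin 2)) = 0 := by
    rw [← wd_nil, dyn, linw_wd]; rfl
  rw [h3, zero_mul, add_zero] at h1
  have h4 : P = ((n : ℚ)⁻¹) • dyn P := by
    rw [← h1, smul_smul, inv_mul_cancel₀ (by exact_mod_cast hn.ne'), one_smul]
  rw [h4]
  exact Lie01.smul_mem _ (dyn_mem P)

end

end Pool.Agent.ECG
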