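import Mathlib
import Pool.Agent.Lib.H4DepthOne
import Pool.Agent.ECG.Dynkin

/-!
# Membership in `dm` in terms of values on shuffles and stuffles of words
-/

set_option autoImplicit false

open scoped TensorProduct

namespace Pool.Agent.ECG

open Pool.Agent.H4DM

noncomputable section

/-- The pairing with the stuffle coproduct is the value on the stuffle product. -/
theorem dd_eq_stE : ∀ (n : ℕ) (a b : List ℕ+), a.length + b.length ≤ n → ∀ P : NC ℕ+,
    dd a b P = stE (cf P) a b := by
  intro n
  induction n with
  | zero =>
    intro a b hab P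
    have ha : a = [] := List.length_eq_zero_iff.mp (by omega)
    subst ha
    rw [dd_nil_left, stE_nil_left]
  | succ n ih =>
    intro a b hab P
    rcases a with _ | ⟨i, a⟩
    · rw [dd_nil_left, stE_nil_left]
    · rcases b with _ | ⟨j, b⟩
      · rw [dd_nil_right, stE_nil_right]
      · simp only [List.length_cons] at hab
        have e : ∀ k : ℕ+, (fun w => cf P (k :: w)) = cf (lq1 k P) := by
          intro k; funext w; rw [cf_lq1]
        rw [dd_cons_cons, stE_cons_cons, e, e, e,
          ih _ _ (by simp only [List.length_cons]; omega),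
          ih _ _ (by simp only [List.length_cons]; omega), ih _ _ (by omega)]

theorem prim_of_stE {Q : NC ℕ+} (h0 : cf Q [] = 0)
    (h : ∀ U V : List ℕ+, U ≠ [] → V ≠ [] → stE (cf Q) U V = 0) : Prim Q := by
  rw [prim_iff]
  refine ⟨h0, fun i j a b => ?_⟩
  rw [dd_eq_stE _ _ _ le_rfl]
  exact h _ _ (by simp) (by simp)

theorem stE_of_prim {Q : NC ℕ+} (h : Prim Q) (U V : List ℕ+) (hU : U ≠ []) (hV : V ≠ []) :
    stE (cf Q) U V = 0 := by
  rcases U with _ | ⟨i, a⟩
  · exact absurd rfl hU
  · rcases V with _ | ⟨j, b⟩
    · exact absurd rfl hV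
    · rw [← dd_eq_stE _ _ _ le_rfl]
      exact ((prim_iff Q).mp h).2 i j a b

theorem cf_corr' (P : NC (Fin 2)) (t : List ℕ+) :
    cf (corr P) t = if 2 ≤ t.length ∧ t = List.replicate t.length 1 then
      ((-1 : ℚ) ^ (t.length - 1) / t.length) * cf P (List.replicate (t.length - 1) 0 ++ [1])
      else 0 := by
  induction P using nc_induction with
  | hw l =>
    rw [corr, linw_wd]
    by_cases h : 2 ≤ l.length ∧ l = List.replicate (l.length - 1) 0 ++ [1]
    · rw [if_pos h, cf_smul, cf_wd, cf_wd]
      by_cases ht : List.replicate l.length (1 : ℕ+) = t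
      · have hlen : t.length = l.length := by rw [← ht]; simp
        rw [if_pos ht, if_pos ⟨by omega, by rw [hlen, ht]⟩, hlen, if_pos h.2]
      · rw [if_neg ht, mul_zero]
        split_ifs with h1 h2
        · exfalso
          apply ht
          have hlen := congrArg List.length h2
          simp only [List.length_append, List.length_replicate, List.length_cons,
            List.length_nil] at hlen
          have : l.length = t.length := by omega
          rw [this]; exact h1.2.symm
        · ring
        · rfl
    · rw [if_neg h]
      change (0 : ℚ) = _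
      split_ifs with h1
      · rw [cf_wd, if_neg, mul_zero]
        intro h2
        apply h
        have hlen := congrArg List.length h2
        simp only [List.length_append, List.length_replicate, List.length_cons,
          List.length_nil] at hlen
        have h3 : l.length = t.length := by omega
        exact ⟨by omega, by rw [h3]; exact h2⟩
      · rfl
  | zero => simp
  | add p q hp hq => rw [map_add, cf_add, hp, hq, cf_add]; split_ifs <;> ring
  | smul c p hp => rw [map_smul, cf_smul, hp, cf_smul]; split_ifs <;> ring

theorem cf_psiStar (P : NC (Fin 2)) (t : List ℕ+) :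
    cf (psiStar P) t = cf P (yw t) + if 2 ≤ t.length ∧ t = List.replicate t.length 1 then
      ((-1 : ℚ) ^ (t.length - 1) / t.length) * cf P (List.replicate (t.length - 1) 0 ++ [1])
      else 0 := by
  rw [psiStar, cf_add, cf_piY, cf_corr']

/-- A homogeneous polynomial of weight `≥ 3` satisfying the double shuffle relations modulo
products is in `dm`. -/
theorem isDM_of_rel {P : NC (Fin 2)} {m : ℕ} (hm : 3 ≤ m)
    (hom : ∀ w : List (Fin 2), w.length ≠ m → cf P w = 0)
    (hsh : ∀ u v : List (Fin 2), u ≠ [] → v ≠ [] → shE (cf P) u v = 0)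
    (hst : ∀ U V : List ℕ+, U ≠ [] → V ≠ [] → stE (cf (psiStar P)) U V = 0) : IsDM P := by
  refine ⟨mem_Lie01_of_shE (by omega) hom hsh, hom _ (by simp; omega), hom _ (by simp; omega),
    hom _ (by simp; omega), ?_⟩
  apply prim_of_stE _ hst
  rw [cf_psiStar, if_neg (by simp)]
  rw [hom _ (by simp [yw]; omega), add_zero]

end

end Pool.Agent.ECG
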