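import Mathlib
import Pool.Agent.ECG.Crit

/-!
# The torsor step: comparison of two points of the double shuffle scheme
-/

set_option autoImplicit false

namespace Pool.Agent.ECG

open Pool.Agent.H4DM

noncomputable section

/-! ### Generalities on `shE`, `stE` -/

section gen

variable {α : Type*} {M N : Type*} [AddCommMonoid M] [AddCommMonoid N]

theorem shE_congr : ∀ (n : ℕ) (c c' : List α → M) (u v : List α), u.length + v.length = n →
    (∀ w : List α, w.length = n → c w = c' w) → shE c u v = shE c' u v := by
  intro n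
  induction n with
  | zero =>
    intro c c' u v huv h
    have hu : u = [] := List.length_eq_zero_iff.mp (by omega)
    have hv : v = [] := List.length_eq_zero_iff.mp (by omega)
    subst hu; subst hv
    rw [shE_nil_left, shE_nil_left]; exact h [] rfl
  | succ n ih =>
    intro c c' u v huv h
    rcases u with _ | ⟨a, u⟩
    · rw [shE_nil_left, shE_nil_left]; exact h _ (by simpa using huv)
    · rcases v with _ | ⟨b, v⟩
      · rw [shE_nil_right, shE_nil_right]; exact h _ (by simpa using huv)
      · simp only [List.length_cons] at huv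
        rw [shE_cons_cons, shE_cons_cons,
          ih _ (fun w => c' (a :: w)) u (b :: v) (by simp only [List.length_cons]; omega)
            (fun w hw => h _ (by simp [hw])),
          ih _ (fun w => c' (b :: w)) (a :: u) v (by simp only [List.length_cons]; omega)
            (fun w hw => h _ (by simp [hw]))]

theorem shE_map (f : M →+ N) : ∀ (n : ℕ) (c : List α → M) (u v : List α),
    u.length + v.length ≤ n → shE (fun w => f (c w)) u v = f (shE c u v) := by
  intro n
  induction n with
  | zero =>
    intro c u v huv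
    have hu : u = [] := List.length_eq_zero_iff.mp (by omega)
    subst hu
    rw [shE_nil_left, shE_nil_left]
  | succ n ih =>
    intro c u v huv
    rcases u with _ | ⟨a, u⟩
    · rw [shE_nil_left, shE_nil_left]
    · rcases v with _ | ⟨b, v⟩
      · rw [shE_nil_right, shE_nil_right]
      · simp only [List.length_cons] at huv
        rw [shE_cons_cons, shE_cons_cons, map_add,
          ih (fun w => c (a :: w)) u (b :: v) (by simp only [List.length_cons]; omega),
          ih (fun w => c (b :: w)) (a :: u) v (by simp only [List.length_cons]; omega)]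

theorem shE_zero : ∀ (n : ℕ) (u v : List α), u.length + v.length ≤ n →
    shE (fun _ => (0 : M)) u v = 0 := by
  intro n
  induction n with
  | zero =>
    intro u v huv
    have hu : u = [] := List.length_eq_zero_iff.mp (by omega)
    subst hu
    rw [shE_nil_left]
  | succ n ih =>
    intro u v huv
    rcases u with _ | ⟨a, u⟩
    · rw [shE_nil_left]
    · rcases v with _ | ⟨b, v⟩
      · rw [shE_nil_right]
      · simp only [List.length_cons] at huv
        rw [shE_cons_cons, ih _ _ (by simp only [List.length_cons]; omega),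
          ih _ _ (by simp only [List.length_cons]; omega), add_zero]

end gen

theorem wtY_cons (n : ℕ+) (t : List ℕ+) : wt wY (n :: t) = (n : ℕ) + wt wY t := by
  rw [wt_cons]

section gen2

variable {M N : Type*} [AddCommMonoid M] [AddCommMonoid N]

theorem stE_congr : ∀ (n : ℕ) (c c' : List ℕ+ → M) (u v : List ℕ+) (k : ℕ),
    u.length + v.length ≤ n → wt wY u + wt wY v = k →
    (∀ w : List ℕ+, wt wY w = k → c w = c' w) → stE c u v = stE c' u v := by
  intro n
  induction n with
  | zero =>
    intro c c' u v k huv hk h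
    have hu : u = [] := List.length_eq_zero_iff.mp (by omega)
    have hv : v = [] := List.length_eq_zero_iff.mp (by omega)
    subst hu; subst hv
    rw [stE_nil_left, stE_nil_left]; exact h [] (by simpa using hk)
  | succ n ih =>
    intro c c' u v k huv hk h
    rcases u with _ | ⟨a, u⟩
    · rw [stE_nil_left, stE_nil_left]; exact h _ (by simpa using hk)
    · rcases v with _ | ⟨b, v⟩
      · rw [stE_nil_right, stE_nil_right]; exact h _ (by simpa using hk)
      · simp only [List.length_cons] at huv
        rw [wtY_cons, wtY_cons] at hk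
        rw [stE_cons_cons, stE_cons_cons,
          ih _ (fun w => c' (a :: w)) u (b :: v) (k - a) (by simp only [List.length_cons]; omega)
            (by rw [wtY_cons]; omega) (fun w hw => h _ (by rw [wtY_cons]; omega)),
          ih _ (fun w => c' (b :: w)) (a :: u) v (k - b) (by simp only [List.length_cons]; omega)
            (by rw [wtY_cons]; omega) (fun w hw => h _ (by rw [wtY_cons]; omega)),
          ih _ (fun w => c' ((a + b) :: w)) u v (k - (a + b)) (by omega)
            (by omega) (fun w hw => h _ (by rw [wtY_cons, PNat.add_coe]; omega))]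

theorem stE_map (f : M →+ N) : ∀ (n : ℕ) (c : List ℕ+ → M) (u v : List ℕ+),
    u.length + v.length ≤ n → stE (fun w => f (c w)) u v = f (stE c u v) := by
  intro n
  induction n with
  | zero =>
    intro c u v huv
    have hu : u = [] := List.length_eq_zero_iff.mp (by omega)
    subst hu
    rw [stE_nil_left, stE_nil_left]
  | succ n ih =>
    intro c u v huv
    rcases u with _ | ⟨a, u⟩
    · rw [stE_nil_left, stE_nil_left]
    · rcases v with _ | ⟨b, v⟩
      · rw [stE_nil_right, stE_nil_right]
      · simp only [List.length_cons] at huv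
        rw [stE_cons_cons, stE_cons_cons, map_add, map_add,
          ih (fun w => c (a :: w)) u (b :: v) (by simp only [List.length_cons]; omega),
          ih (fun w => c (b :: w)) (a :: u) v (by simp only [List.length_cons]; omega),
          ih (fun w => c ((a + b) :: w)) u v (by omega)]

theorem stE_zero : ∀ (n : ℕ) (u v : List ℕ+), u.length + v.length ≤ n →
    stE (fun _ => (0 : M)) u v = 0 := by
  intro n
  induction n with
  | zero =>
    intro u v huv
    have hu : u = [] := List.length_eq_zero_iff.mp (by omega)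
    subst hu
    rw [stE_nil_left]
  | succ n ih =>
    intro u v huv
    rcases u with _ | ⟨a, u⟩
    · rw [stE_nil_left]
    · rcases v with _ | ⟨b, v⟩
      · rw [stE_nil_right]
      · simp only [List.length_cons] at huv
        rw [stE_cons_cons, ih _ _ (by simp only [List.length_cons]; omega),
          ih _ _ (by simp only [List.length_cons]; omega), ih _ _ (by omega)]
        simp

end gen2

theorem shE_sub {α : Type*} (c c' : List α → ℝ) (u v : List α) :
    shE (fun w => c w - c' w) u v = shE c u v - shE c' u v := by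
  have h1 := shE_map (AddMonoidHom.fst ℝ ℝ) _ (fun w => (c w, c' w)) u v le_rfl
  have h2 := shE_map (AddMonoidHom.snd ℝ ℝ) _ (fun w => (c w, c' w)) u v le_rfl
  have h3 := shE_map (AddMonoidHom.fst ℝ ℝ - AddMonoidHom.snd ℝ ℝ) _
    (fun w => (c w, c' w)) u v le_rfl
  simp only [AddMonoidHom.coe_fst, AddMonoidHom.coe_snd, AddMonoidHom.sub_apply] at h1 h2 h3
  rw [h1, h2, ← h3]

theorem stE_sub (c c' : List ℕ+ → ℝ) (u v : List ℕ+) :
    stE (fun w => c w - c' w) u v = stE c u v - stE c' u v := by
  have h1 := stE_map (AddMonoidHom.fst ℝ ℝ) _ (fun w => (c w, c' w)) u v le_rfl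
  have h2 := stE_map (AddMonoidHom.snd ℝ ℝ) _ (fun w => (c w, c' w)) u v le_rfl
  have h3 := stE_map (AddMonoidHom.fst ℝ ℝ - AddMonoidHom.snd ℝ ℝ) _
    (fun w => (c w, c' w)) u v le_rfl
  simp only [AddMonoidHom.coe_fst, AddMonoidHom.coe_snd, AddMonoidHom.sub_apply] at h1 h2 h3
  rw [h1, h2, ← h3]

/-! ### Newton's identity in the stuffle algebra -/

/-- Sum of the values at the words with one letter `y_i` and `j` letters `y₁`. -/
def Ains (c : List ℕ+ → ℝ) (i : ℕ+) (j : ℕ) : ℝ :=
  ∑ a ∈ Finset.range (j + 1), c (List.replicate a 1 ++ i :: List.replicate (j - a) 1)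

theorem Ains_succ (c : List ℕ+ → ℝ) (i : ℕ+) (j : ℕ) :
    Ains c i (j + 1) = c (i :: List.replicate (j + 1) 1) + Ains (fun w => c (1 :: w)) i j := by
  rw [Ains, Finset.sum_range_succ', Ains, add_comm]
  congr 1
  apply Finset.sum_congr rfl
  intro a _
  rw [List.replicate_succ, List.cons_append, show j + 1 - (a + 1) = j - a by omega]

theorem stE_letter_succ (c : List ℕ+ → ℝ) (i : ℕ+) (j : ℕ) :
    stE c [i] (List.replicate (j + 1) 1) = Ains c i (j + 1) + Ains c (i + 1) j := by
  induction j generalizing c with
  | zero =>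
    simp only [zero_add, List.replicate_one]
    rw [stE_cons_cons, stE_nil_left, stE_nil_right, stE_nil_left, show (1 : ℕ) = 0 + 1 from rfl,
      Ains_succ]
    simp [Ains]
  | succ j ih =>
    rw [List.replicate_succ, stE_cons_cons, stE_nil_left, stE_nil_left, ih, Ains_succ c i,
      Ains_succ c (i + 1), ← List.replicate_succ]
    ring

theorem stE_letter_zero (c : List ℕ+ → ℝ) (i : ℕ+) :
    stE c [i] (List.replicate 0 1) = Ains c i 0 := by
  simp [Ains]

theorem Ains_one (c : List ℕ+ → ℝ) (j : ℕ) :
    Ains c 1 j = (j + 1 : ℝ) * c (List.replicate (j + 1) 1) := by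
  rw [Ains, Finset.sum_congr rfl (g := fun _ => c (List.replicate (j + 1) 1))]
  · simp
  · intro a ha
    rw [Finset.mem_range] at ha
    congr 1
    rw [← List.replicate_succ, ← List.replicate_add]
    congr 1
    omega

/-- Newton's identity. -/
theorem newton (c : List ℕ+ → ℝ) (n : ℕ) :
    ∑ k ∈ Finset.range (n + 1),
      (-1 : ℝ) ^ k * stE c [k.succPNat] (List.replicate (n - k) 1) =
      (n + 1 : ℝ) * c (List.replicate (n + 1) 1) := by
  have h : ∀ k ∈ Finset.range n, (-1 : ℝ) ^ k * stE c [k.succPNat] (List.replicate (n - k) 1) =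
      (-1 : ℝ) ^ k * Ains c k.succPNat (n - k) -
        (-1 : ℝ) ^ (k + 1) * Ains c (k + 1).succPNat (n - (k + 1)) := by
    intro k hk
    rw [Finset.mem_range] at hk
    obtain ⟨j, hj⟩ : ∃ j, n - k = j + 1 := ⟨n - k - 1, by omega⟩
    rw [hj, stE_letter_succ, show n - (k + 1) = j by omega,
      show (k + 1).succPNat = k.succPNat + 1 from rfl, pow_succ]
    ring
  rw [Finset.sum_range_succ, Finset.sum_congr rfl h, Finset.sum_range_sub', Nat.sub_self,
    stE_letter_zero]
  simp only [pow_zero, one_mul, Nat.sub_zero, Nat.sub_self]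
  rw [show Nat.succPNat 0 = 1 from rfl, Ains_one]
  ring

/-! ### Consequences for points -/

section point

variable {Φ Φ' : List (Fin 2) → ℝ} {Λ Λ' : ℕ → ℝ}

theorem DPoint.ones (h : DPoint Φ Λ) (n : ℕ) : Φ (List.replicate (n + 1) 1) = 0 := by
  induction n with
  | zero => exact h.x1
  | succ n ih =>
    have key : ∀ (n : ℕ) (c : List (Fin 2) → ℝ),
        shE c [1] (List.replicate n 1) = (n + 1 : ℝ) * c (List.replicate (n + 1) 1) := by
      intro n
      induction n with
      | zero => intro c; simp
      | succ n ihn =>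
        intro c
        rw [List.replicate_succ, shE_cons_cons, shE_nil_left, ihn]
        simp only [← List.replicate_succ]
        push_cast
        ring
    have h1 := h.sh [1] (List.replicate (n + 1) 1)
    rw [key, h.x1, zero_mul] at h1
    have h2 : ((n + 1 : ℕ) : ℝ) + 1 ≠ 0 := by positivity
    exact (mul_eq_zero.mp h1).resolve_left h2

theorem yw_replicate_one (n : ℕ) : yw (List.replicate n 1) = List.replicate n 1 := by
  induction n with
  | zero => rfl
  | succ n ih => rw [List.replicate_succ, yw, ih]; simp [List.replicate_succ]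

theorem stv_ones (h : DPoint Φ Λ) (n : ℕ) (L : ℕ → ℝ) :
    stv Φ L (List.replicate n 1) = L n := by
  induction n generalizing L with
  | zero => simp [stv, h.nil]
  | succ n ih =>
    rw [List.replicate_succ, stv, if_pos rfl, ih, ← List.replicate_succ, yw_replicate_one, h.ones,
      mul_zero, zero_add]

theorem yw_letter (n : ℕ) : yw [n.succPNat] = List.replicate n 0 ++ [1] := by
  simp [yw]

theorem stv_letter (h : DPoint Φ Λ) (n : ℕ) :
    stv Φ Λ [n.succPNat] = Φ (List.replicate n 0 ++ [1]) := by
  rw [stv, yw_letter, h.L0, one_mul]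
  split_ifs with h1
  · rw [stv, zero_add, h.L1, zero_mul, add_zero]
  · rw [add_zero]

theorem DPoint.newton (h : DPoint Φ Λ) (n : ℕ) :
    (n + 1 : ℝ) * Λ (n + 1) =
      ∑ k ∈ Finset.range (n + 1), (-1 : ℝ) ^ k * (Φ (List.replicate k 0 ++ [1]) * Λ (n - k)) := by
  rw [← stv_ones h (n + 1) Λ, ← Pool.Agent.ECG.newton]
  apply Finset.sum_congr rfl
  intro k _
  rw [h.st, stv_letter h, stv_ones h]

/-- `Λ` is determined by `Φ`. -/
theorem DPoint.Lam_eq (h : DPoint Φ Λ) (h' : DPoint Φ' Λ') {m : ℕ}
    (hag : ∀ w : List (Fin 2), w.length < m → Φ' w = Φ w) :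
    ∀ n < m, Λ' n = Λ n := by
  intro n
  induction n using Nat.strong_induction_on with
  | _ n ih =>
    intro hn
    rcases n with _ | n
    · rw [h.L0, h'.L0]
    · have h1 := h.newton n
      have h2 := h'.newton n
      have h3 : (n + 1 : ℝ) * Λ' (n + 1) = (n + 1 : ℝ) * Λ (n + 1) := by
        rw [h1, h2]
        apply Finset.sum_congr rfl
        intro k hk
        rw [Finset.mem_range] at hk
        rw [hag _ (by simp; omega), ih (n - k) (by omega) (by omega)]
      exact mul_left_cancel₀ (by positivity) h3

theorem DPoint.Lam_diff (h : DPoint Φ Λ) (h' : DPoint Φ' Λ') {m : ℕ}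
    (hag : ∀ w : List (Fin 2), w.length < m + 1 → Φ' w = Φ w) :
    (m + 1 : ℝ) * (Λ' (m + 1) - Λ (m + 1)) =
      (-1 : ℝ) ^ m * (Φ' (List.replicate m 0 ++ [1]) - Φ (List.replicate m 0 ++ [1])) := by
  have h1 := h.newton m
  have h2 := h'.newton m
  have h3 := h.Lam_eq h' hag
  rw [mul_sub, h1, h2, ← Finset.sum_sub_distrib, Finset.sum_range_succ, Finset.sum_eq_zero]
  · rw [Nat.sub_self, h.L0, h'.L0]; ring
  · intro k hk
    rw [Finset.mem_range] at hk
    rw [hag _ (by simp; omega), h3 (m - k) (by omega)]
    ring

theorem length_ywW (t : List ℕ+) : (yw t).length = wt wY t := length_yw t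

/-- Both star functionals agree in lower weights. -/
theorem stv_agree (m : ℕ) (hag : ∀ w : List (Fin 2), w.length < m → Φ' w = Φ w) :
    ∀ (t : List ℕ+) (s : ℕ) (L L' : ℕ → ℝ), wt wY t + s < m → (∀ n < m - s, L' n = L n) →
      stv Φ' L' t = stv Φ L t := by
  intro t
  induction t with
  | nil =>
    intro s L L' hs hL
    rw [stv, stv, hL 0 (by simp at hs; omega), hag _ (by simp at hs ⊢; omega)]
  | cons n t ih =>
    intro s L L' hs hL
    have hs' : (n : ℕ) + wt wY t + s < m := by rw [← wtY_cons]; exact hs
    rw [stv, stv, hL 0 (by omega), hag _ (by rw [length_ywW]; omega)]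
    congr 1
    split_ifs with h1
    · subst h1
      have h1' : ((1 : ℕ+) : ℕ) = 1 := rfl
      exact ih (s + 1) _ _ (by omega) (fun k hk => hL _ (by omega))
    · rfl

theorem stv_diff_aux (h : DPoint Φ Λ) (h' : DPoint Φ' Λ') (m : ℕ)
    (hag : ∀ w : List (Fin 2), w.length < m → Φ' w = Φ w) :
    ∀ (t : List ℕ+) (s : ℕ), 1 ≤ s → wt wY t + s = m →
      stv Φ' (fun i => Λ' (i + s)) t - stv Φ (fun i => Λ (i + s)) t =
        if t = List.replicate (m - s) 1 then Λ' m - Λ m else 0 := by
  intro t
  induction t with
  | nil =>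
    intro s hs hm
    have : s = m := by simpa using hm
    subst this
    rw [stv, stv, h.nil, h'.nil]
    simp
  | cons n t ih =>
    intro s hs hm
    rw [wtY_cons] at hm
    have hn := n.pos
    have hΛ := h.Lam_eq h' hag
    rw [stv, stv, hag (yw (n :: t)) (by rw [length_ywW, wtY_cons]; omega)]
    simp only [zero_add]
    rw [hΛ s (by omega)]
    by_cases h1 : n = 1
    · subst h1
      have h1' : ((1 : ℕ+) : ℕ) = 1 := rfl
      rw [if_pos rfl, if_pos rfl]
      have := ih (s + 1) (by omega) (by omega)
      have e1 : (fun i => Λ' (i + 1 + s)) = fun i => Λ' (i + (s + 1)) := by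
        funext i; congr 1; omega
      have e2 : (fun i => Λ (i + 1 + s)) = fun i => Λ (i + (s + 1)) := by
        funext i; congr 1; omega
      rw [e1, e2, add_sub_add_left_eq_sub, this]
      have e3 : m - s = (m - (s + 1)) + 1 := by omega
      rw [e3, List.replicate_succ]
      simp
    · rw [if_neg h1, if_neg h1, if_neg, add_zero, sub_self]
      intro h2
      have e3 : m - s = (m - (s + 1)) + 1 := by omega
      rw [e3, List.replicate_succ] at h2
      exact h1 (List.cons.inj h2).1

theorem stv_diff (h : DPoint Φ Λ) (h' : DPoint Φ' Λ') (m : ℕ) (hm : 1 ≤ m)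
    (hag : ∀ w : List (Fin 2), w.length < m → Φ' w = Φ w) (t : List ℕ+) (ht : wt wY t = m) :
    stv Φ' Λ' t - stv Φ Λ t = Φ' (yw t) - Φ (yw t) +
      if t = List.replicate m 1 then Λ' m - Λ m else 0 := by
  rcases t with _ | ⟨n, t⟩
  · simp at ht; omega
  · rw [stv, stv, h.L0, h'.L0]
    rw [wtY_cons] at ht
    by_cases h1 : n = 1
    · subst h1
      have h1' : ((1 : ℕ+) : ℕ) = 1 := rfl
      rw [if_pos rfl, if_pos rfl]
      have := stv_diff_aux h h' m hag t 1 le_rfl (by omega)
      obtain ⟨k, rfl⟩ : ∃ k, m = k + 1 := ⟨m - 1, by omega⟩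
      rw [List.replicate_succ]
      simp only [Nat.add_sub_cancel] at this
      have e : ((1 : ℕ+) :: t = 1 :: List.replicate k 1) ↔ t = List.replicate k 1 := by simp
      rw [if_congr e rfl rfl, ← this]
      ring
    · rw [if_neg h1, if_neg h1, if_neg]
      · ring
      · obtain ⟨k, rfl⟩ : ∃ k, m = k + 1 := ⟨m - 1, by omega⟩
        rw [List.replicate_succ]
        intro h2
        exact h1 (List.cons.inj h2).1

end point

end

end Pool.Agent.ECG
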