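import Mathlib
import Pool.Agent.ECG.Torsor

/-!
# From a real point to elements of `dm` with nonzero depth-one part in every odd weight
-/

set_option autoImplicit false

namespace Pool.Agent.ECG

open Pool.Agent.H4DM

noncomputable section

/-! ### Rational components of a real-valued functional -/

/-- The polynomial with given coefficients on words of length `m`. -/
def polyOf (m : ℕ) (f : List (Fin 2) → ℚ) : NC (Fin 2) :=
  ∑ w : Fin m → Fin 2, f (List.ofFn w) • wd (List.ofFn w)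

theorem cf_polyOf (m : ℕ) (f : List (Fin 2) → ℚ) (l : List (Fin 2)) :
    cf (polyOf m f) l = if l.length = m then f l else 0 := by
  rw [polyOf, cf_sum]
  by_cases hl : l.length = m
  · rw [if_pos hl]
    subst hl
    rw [Finset.sum_eq_single (fun i => l.get i)]
    · rw [cf_smul, cf_wd, List.ofFn_get]; simp
    · intro w _ hw
      rw [cf_smul, cf_wd, if_neg, mul_zero]
      intro h
      apply hw
      exact List.ofFn_injective (h.trans (List.ofFn_get l).symm)
    · intro h; exact absurd (Finset.mem_univ _) h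
  · rw [if_neg hl]
    apply Finset.sum_eq_zero
    intro w _
    rw [cf_smul, cf_wd, if_neg, mul_zero]
    intro h
    apply hl
    rw [← h, List.length_ofFn]

/-- Finitely many real numbers have rational coordinates. -/
theorem exists_coords (T : Set ℝ) (hT : T.Finite) : ∃ (n : ℕ) (b : Fin n → ℝ)
    (lam : Fin n → ℝ →ₗ[ℚ] ℚ), ∀ x ∈ T, x = ∑ i, b i * (lam i x : ℝ) := by
  let V : Submodule ℚ ℝ := Submodule.span ℚ T
  haveI : Module.Finite ℚ V := by
    rw [Module.Finite.iff_fg]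
    exact Submodule.fg_span hT
  let B := Module.finBasis ℚ V
  have hex : ∀ i, ∃ g : ℝ →ₗ[ℚ] ℚ, g ∘ₗ V.subtype = B.coord i := fun i =>
    LinearMap.exists_extend (B.coord i)
  choose lam hlam using hex
  refine ⟨_, fun i => (B i : ℝ), lam, fun x hx => ?_⟩
  have hxV : x ∈ V := Submodule.subset_span hx
  have h1 := B.sum_repr ⟨x, hxV⟩
  have h2 := congrArg (Subtype.val) h1
  rw [Submodule.coe_sum] at h2
  conv_lhs => rw [show x = ((⟨x, hxV⟩ : V) : ℝ) from rfl, ← h2]
  apply Finset.sum_congr rfl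
  intro i _
  have h3 : lam i x = B.repr ⟨x, hxV⟩ i := by
    have := LinearMap.congr_fun (hlam i) ⟨x, hxV⟩
    simpa using this
  rw [h3, Submodule.coe_smul, Rat.smul_def, mul_comm]

section diff

variable {Φ Φ' : List (Fin 2) → ℝ} {Λ Λ' : ℕ → ℝ}

/-- A rational component of the first difference of two points is in `dm`. -/
theorem isDM_component (h : DPoint Φ Λ) (h' : DPoint Φ' Λ') {m : ℕ} (hm : 3 ≤ m)
    (hag : ∀ w : List (Fin 2), w.length < m → Φ' w = Φ w) (lam : ℝ →ₗ[ℚ] ℚ) :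
    IsDM (polyOf m (fun w => lam (Φ' w - Φ w))) := by
  set P := polyOf m (fun w => lam (Φ' w - Φ w)) with hP
  have hom : ∀ w : List (Fin 2), w.length ≠ m → cf P w = 0 := by
    intro w hw
    rw [hP, cf_polyOf, if_neg hw]
  apply isDM_of_rel hm hom
  · intro u v hu hv
    have hu' : 0 < u.length := List.length_pos_iff.mpr hu
    have hv' : 0 < v.length := List.length_pos_iff.mpr hv
    by_cases huv : u.length + v.length = m
    · rw [shE_congr m (cf P) (fun w => lam (Φ' w - Φ w)) u v huv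
        (fun w hw => by rw [hP, cf_polyOf, if_pos hw])]
      have := shE_map lam.toAddMonoidHom _ (fun w => Φ' w - Φ w) u v le_rfl
      simp only [LinearMap.toAddMonoidHom_coe] at this
      rw [this, shE_sub, h.sh, h'.sh, hag u (by omega), hag v (by omega), sub_self, map_zero]
    · rw [shE_congr (u.length + v.length) (cf P) (fun _ => 0) u v rfl
        (fun w hw => hom w (by omega))]
      exact shE_zero _ _ _ le_rfl
  · intro U V hU hV
    have hpos : ∀ U : List ℕ+, U ≠ [] → 0 < wt wY U := by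
      intro U hU
      rcases U with _ | ⟨n, t⟩
      · exact absurd rfl hU
      · rw [wtY_cons]; have := n.pos; omega
    have hU' := hpos U hU
    have hV' := hpos V hV
    -- the functional of `psiStar P` is `lam` of the difference of the stars
    have key : ∀ t : List ℕ+, wt wY t = m → cf (psiStar P) t = lam (stv Φ' Λ' t - stv Φ Λ t) := by
      intro t ht
      rw [cf_psiStar, stv_diff h h' m (by omega) hag t ht, map_add, hP, cf_polyOf,
        if_pos (by rw [length_yw]; exact ht)]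
      congr 1
      by_cases h1 : t = List.replicate m 1
      · have hlen : t.length = m := by rw [h1]; simp
        rw [if_pos h1, if_pos ⟨by omega, by rw [hlen]; exact h1⟩, hlen, cf_polyOf,
          if_pos (by simp; omega)]
        obtain ⟨k, rfl⟩ : ∃ k, m = k + 1 := ⟨m - 1, by omega⟩
        simp only [Nat.add_sub_cancel]
        have h2 := h.Lam_diff h' hag
        have h3 : Λ' (k + 1) - Λ (k + 1) =
            (((-1 : ℚ) ^ k / ((k + 1 : ℕ) : ℚ)) •
              (Φ' (List.replicate k 0 ++ [1]) - Φ (List.replicate k 0 ++ [1])) : ℝ) := by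
          rw [Rat.smul_def]
          push_cast
          have h4 : (k + 1 : ℝ) ≠ 0 := by positivity
          field_simp
          linarith [h2]
        rw [h3, map_smul, smul_eq_mul]
      · rw [if_neg h1, map_zero, if_neg]
        rintro ⟨_, h2⟩
        apply h1
        have h3 : wt wY t = t.length := by
          conv_lhs => rw [h2, wt_replicate]
          simp
        rw [← ht, h3]; exact h2
    by_cases huv : wt wY U + wt wY V = m
    · rw [stE_congr _ (cf (psiStar P)) (fun t => lam (stv Φ' Λ' t - stv Φ Λ t)) U V m le_rfl huv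
        key]
      have := stE_map lam.toAddMonoidHom _ (fun t => stv Φ' Λ' t - stv Φ Λ t) U V le_rfl
      simp only [LinearMap.toAddMonoidHom_coe] at this
      have hΛ := h.Lam_eq h' hag
      rw [this, stE_sub, h.st, h'.st,
        stv_agree m hag U 0 Λ Λ' (by omega) (fun n hn => hΛ n (by omega)),
        stv_agree m hag V 0 Λ Λ' (by omega) (fun n hn => hΛ n (by omega)), sub_self, map_zero]
    · rw [stE_congr _ (cf (psiStar P)) (fun _ => 0) U V (wt wY U + wt wY V) le_rfl rfl]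
      · exact stE_zero _ _ _ le_rfl
      · intro t ht
        rw [cf_psiStar, hom _ (by rw [length_yw]; omega), zero_add]
        split_ifs with h1
        · have h3 : wt wY t = t.length := by
            conv_lhs => rw [h1.2, wt_replicate]
            simp
          rw [hom _ (by simp; omega), mul_zero]
        · rfl

end diff

/-! ### The sign-twisted point -/

theorem shE_sign (Φ : List (Fin 2) → ℝ) : ∀ (n : ℕ) (u v : List (Fin 2)) (c : List (Fin 2) → ℝ),
    u.length + v.length = n →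
    shE (fun w => (-1 : ℝ) ^ w.length * c w) u v = (-1 : ℝ) ^ n * shE c u v := by
  intro n u v c huv
  rw [shE_congr n _ (fun w => (-1 : ℝ) ^ n * c w) u v huv (fun w hw => by rw [hw])]
  exact shE_map (AddMonoidHom.mulLeft ((-1 : ℝ) ^ n)) _ c u v le_rfl

theorem stv_sign (Φ : List (Fin 2) → ℝ) (t : List ℕ+) (L : ℕ → ℝ) (s : ℕ) :
    stv (fun w => (-1 : ℝ) ^ w.length * Φ w) (fun i => (-1 : ℝ) ^ (i + s) * L i) t =
      (-1 : ℝ) ^ (wt wY t + s) * stv Φ L t := by
  induction t generalizing L s with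
  | nil => simp [stv]; ring
  | cons n t ih =>
    rw [stv, stv, length_yw, wtY_cons]
    by_cases h1 : n = 1
    · subst h1
      rw [if_pos rfl, if_pos rfl]
      have h1' : ((1 : ℕ+) : ℕ) = 1 := rfl
      have := ih (fun i => L (i + 1)) (s + 1)
      have e : (fun i => (-1 : ℝ) ^ (i + 1 + s) * L (i + 1)) =
          fun i => (-1 : ℝ) ^ (i + (s + 1)) * L (i + 1) := by
        funext i; congr 2; omega
      rw [e, this, h1', show 1 + wt wY t + s = wt wY t + (s + 1) by omega]
      have e2 : (-1 : ℝ) ^ (0 + s) * L 0 * ((-1) ^ (1 + wt wY t) * Φ (yw (1 :: t))) =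
          (-1 : ℝ) ^ (wt wY t + (s + 1)) * (L 0 * Φ (yw (1 :: t))) := by
        rw [show wt wY t + (s + 1) = (0 + s) + (1 + wt wY t) by omega, pow_add]; ring
      rw [e2]; ring
    · rw [if_neg h1, if_neg h1]
      rw [show (n : ℕ) + wt wY t + s = (0 + s) + ((n : ℕ) + wt wY t) by omega, pow_add]; ring

theorem DPoint.sign {Φ : List (Fin 2) → ℝ} {Λ : ℕ → ℝ} (h : DPoint Φ Λ) :
    DPoint (fun w => (-1 : ℝ) ^ w.length * Φ w) (fun i => (-1 : ℝ) ^ i * Λ i) where
  nil := by simp [h.nil]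
  x0 := by simp [h.x0]
  x1 := by simp [h.x1]
  sh u v := by
    rw [shE_sign Φ _ u v Φ rfl, h.sh, pow_add]; ring
  L0 := by simp [h.L0]
  L1 := by simp [h.L1]
  st U V := by
    have hs : ∀ t, stv (fun w => (-1 : ℝ) ^ w.length * Φ w) (fun i => (-1 : ℝ) ^ i * Λ i) t =
        (-1 : ℝ) ^ (wt wY t) * stv Φ Λ t := fun t => by
      simpa using stv_sign Φ t Λ 0
    rw [hs, hs, stE_congr _ _ (fun t => (-1 : ℝ) ^ (wt wY U + wt wY V) * stv Φ Λ t) U V _ le_rfl rfl
      (fun t ht => by rw [hs, ht])]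
    have h1 := stE_map (AddMonoidHom.mulLeft ((-1 : ℝ) ^ (wt wY U + wt wY V))) _ (stv Φ Λ) U V
      le_rfl
    simp only [AddMonoidHom.coe_mulLeft] at h1
    rw [h1, h.st, pow_add]; ring

/-! ### The induction -/

/-- Statement of the exponential step. -/
def ExpStep : Prop :=
  ∀ (ψ : NC (Fin 2)) (m : ℕ), IsDM ψ → 3 ≤ m →
    (∀ w : List (Fin 2), w.length ≠ m → cf ψ w = 0) → ∀ (r : ℝ) (Φ : List (Fin 2) → ℝ)
    (Λ : ℕ → ℝ), DPoint Φ Λ → ∃ (Φ' : List (Fin 2) → ℝ) (Λ' : ℕ → ℝ), DPoint Φ' Λ' ∧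
      (∀ w, w.length < m → Φ' w = Φ w) ∧
      (∀ w, w.length = m → Φ' w = Φ w + r * cf ψ w) ∧
      (∀ n, n + 1 ≠ m → Φ' (List.replicate n 0 ++ [1]) = Φ (List.replicate n 0 ++ [1]))

theorem ExpStep.sum (hE : ExpStep) {m : ℕ} (hm : 3 ≤ m) : ∀ (n : ℕ) (b : Fin n → ℝ)
    (P : Fin n → NC (Fin 2)), (∀ i, IsDM (P i)) →
    (∀ i, ∀ w : List (Fin 2), w.length ≠ m → cf (P i) w = 0) →
    ∀ (Φ : List (Fin 2) → ℝ) (Λ : ℕ → ℝ), DPoint Φ Λ →
    ∃ (Φ' : List (Fin 2) → ℝ) (Λ' : ℕ → ℝ), DPoint Φ' Λ' ∧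
      (∀ w, w.length < m → Φ' w = Φ w) ∧
      (∀ w, w.length = m → Φ' w = Φ w + ∑ i, b i * cf (P i) w) ∧
      (∀ n, n + 1 ≠ m → Φ' (List.replicate n 0 ++ [1]) = Φ (List.replicate n 0 ++ [1])) := by
  intro n
  induction n with
  | zero =>
    intro b P _ _ Φ Λ h
    exact ⟨Φ, Λ, h, fun _ _ => rfl, fun _ _ => by simp, fun _ _ => rfl⟩
  | succ n ih =>
    intro b P hP hom Φ Λ h
    obtain ⟨Φ1, Λ1, h1, ha1, hb1, hc1⟩ := ih (fun i => b i.castSucc) (fun i => P i.castSucc)
      (fun i => hP _) (fun i => hom _) Φ Λ h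
    obtain ⟨Φ2, Λ2, h2, ha2, hb2, hc2⟩ := hE (P (Fin.last n)) m (hP _) hm (hom _)
      (b (Fin.last n)) Φ1 Λ1 h1
    refine ⟨Φ2, Λ2, h2, fun w hw => (ha2 w hw).trans (ha1 w hw), fun w hw => ?_,
      fun k hk => (hc2 k hk).trans (hc1 k hk)⟩
    rw [hb2 w hw, hb1 w hw, Fin.sum_univ_castSucc]
    ring

/-- The step of the induction: make a point agree with another one in one more weight. -/
theorem torsor_step (hE : ExpStep) {m : ℕ} (hm : 3 ≤ m) {Φ Φ' : List (Fin 2) → ℝ}
    {Λ Λ' : ℕ → ℝ} (h : DPoint Φ Λ) (h' : DPoint Φ' Λ')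
    (hag : ∀ w : List (Fin 2), w.length < m → Φ' w = Φ w) :
    ∃ (Φ₂ : List (Fin 2) → ℝ) (Λ₂ : ℕ → ℝ), DPoint Φ₂ Λ₂ ∧
      (∀ w : List (Fin 2), w.length < m + 1 → Φ' w = Φ₂ w) ∧
      (∀ n, n + 1 ≠ m → Φ₂ (List.replicate n 0 ++ [1]) = Φ (List.replicate n 0 ++ [1])) := by
  have hfin : (Set.range (fun w : Fin m → Fin 2 =>
      Φ' (List.ofFn w) - Φ (List.ofFn w))).Finite := Set.finite_range _
  obtain ⟨n, b, lam, hlam⟩ := exists_coords _ hfin
  obtain ⟨Φ₂, Λ₂, h₂, ha, hb, hc⟩ := hE.sum hm n b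
    (fun i => polyOf m (fun w => lam i (Φ' w - Φ w)))
    (fun i => isDM_component h h' hm hag (lam i))
    (fun i w hw => by rw [cf_polyOf, if_neg hw]) Φ Λ h
  refine ⟨Φ₂, Λ₂, h₂, ?_, hc⟩
  intro w hw
  by_cases hw' : w.length < m
  · rw [ha w hw', hag w hw']
  · have hwm : w.length = m := by omega
    rw [hb w hwm]
    have h1 := hlam (Φ' w - Φ w) ⟨fun i => w.get (i.cast hwm.symm), by
      have : List.ofFn (fun i : Fin m => w.get (i.cast hwm.symm)) = w := by
        subst hwm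
        simp
      simp only [this]⟩
    have h2 : ∀ i, ((cf (polyOf m (fun w => lam i (Φ' w - Φ w))) w : ℚ) : ℝ) =
        (lam i (Φ' w - Φ w) : ℝ) := by
      intro i; rw [cf_polyOf, if_pos hwm]
    simp only [h2]
    linarith [h1]

/-- Elements of `dm` of every odd weight with nonzero depth-one part, from a real point. -/
theorem odd_elements (hE : ExpStep) {Φ : List (Fin 2) → ℝ} {Λ : ℕ → ℝ} (h : DPoint Φ Λ)
    (hz : ∀ n, 1 ≤ n → Φ (List.replicate n 0 ++ [1]) ≠ 0) (k : ℕ) :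
    ∃ ψ : NC (Fin 2), IsDM ψ ∧ (∀ w : List (Fin 2), w.length ≠ 2 * k + 3 → cf ψ w = 0) ∧
      cf ψ (List.replicate (2 * k + 2) 0 ++ [1]) ≠ 0 := by
  set Φm : List (Fin 2) → ℝ := fun w => (-1 : ℝ) ^ w.length * Φ w with hΦm
  have hm := h.sign
  -- the induction
  have main : ∀ j : ℕ, ∃ (Φ₂ : List (Fin 2) → ℝ) (Λ₂ : ℕ → ℝ), DPoint Φ₂ Λ₂ ∧
      (∀ w : List (Fin 2), w.length < j + 3 → Φm w = Φ₂ w) ∧
      (∀ n, j + 3 ≤ n + 1 → Φ₂ (List.replicate n 0 ++ [1]) = Φ (List.replicate n 0 ++ [1])) := by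
    intro j
    induction j with
    | zero =>
      refine ⟨Φ, Λ, h, ?_, fun _ _ => rfl⟩
      intro w hw
      rcases w with _ | ⟨a, w⟩
      · simp [hΦm]
      · rcases w with _ | ⟨b, w⟩
        · have : Φ [a] = 0 := by
            fin_cases a
            · exact h.x0
            · exact h.x1
          simp [hΦm, this]
        · rcases w with _ | ⟨c, w⟩
          · simp [hΦm]
          · simp only [List.length_cons] at hw; omega
    | succ j ih =>
      obtain ⟨Φ₂, Λ₂, h₂, ha, hb⟩ := ih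
      obtain ⟨Φ₃, Λ₃, h₃, ha', hb'⟩ := torsor_step hE (m := j + 3) (by omega) h₂ hm ha
      exact ⟨Φ₃, Λ₃, h₃, fun w hw => ha' w (by omega),
        fun n hn => (hb' n (by omega)).trans (hb n (by omega))⟩
  obtain ⟨Φ₂, Λ₂, h₂, ha, hb⟩ := main (2 * k)
  -- the difference in weight `2k+3`
  set w₀ : List (Fin 2) := List.replicate (2 * k + 2) 0 ++ [1] with hw₀
  have hlen : w₀.length = 2 * k + 3 := by simp [hw₀]
  have hd : Φm w₀ - Φ₂ w₀ ≠ 0 := by
    rw [hb (2 * k + 2) (by omega)]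
    have : Φm w₀ = - Φ w₀ := by
      rw [hΦm]
      simp only [hlen]
      rw [Odd.neg_one_pow ⟨k + 1, by ring⟩]; ring
    rw [this]
    have := hz (2 * k + 2) (by omega)
    intro h0
    apply this
    have h3 : - Φ w₀ - Φ w₀ = 0 := h0
    linarith
  obtain ⟨n, b, lam, hlam⟩ := exists_coords {Φm w₀ - Φ₂ w₀} (Set.finite_singleton _)
  have h1 := hlam _ (Set.mem_singleton _)
  obtain ⟨i, hi⟩ : ∃ i, lam i (Φm w₀ - Φ₂ w₀) ≠ 0 := by
    by_contra hcon
    push Not at hcon
    apply hd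
    rw [h1]
    apply Finset.sum_eq_zero
    intro i _
    rw [hcon i]; simp
  refine ⟨polyOf (2 * k + 3) (fun w => lam i (Φm w - Φ₂ w)),
    isDM_component h₂ hm (by omega) ha (lam i), fun w hw => by rw [cf_polyOf, if_neg hw], ?_⟩
  rw [cf_polyOf, if_pos hlen]
  exact hi

end

end Pool.Agent.ECG
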